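import Pool.Agent.Helper14.TR.Defs

/-!
TR-9a: the Lie algebra `LG Γ` for the `ℓ`-adic data of project TR: it contains the derivatives of the Hodge-Tate
cocharacters, commutes with the endomorphisms, consists of infinitesimal similitudes, and the blocks are irreducible.
-/

set_option linter.unusedSectionVars false

open Matrix

namespace MH

variable {n : Type*} [Fintype n] [DecidableEq n]
variable {m : ℤ} {Q : Matrix n n ℚ} {S : Finset ℤ} {P : ℤ → Matrix n n ℂ} {Γ : Subgroup (GL n ℂ)}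

theorem IsHT.h_mem {R : ℤ → Matrix n n ℂ} (G : IsHT m Q S Γ R) : ∑ p ∈ S, (p : ℂ) • R p ∈ LG Γ := by
  intro a b t ht
  have h1 : Idm S R := ⟨G.mul, G.sum⟩
  exact (h1.inv_iff a b t).1 (G.ht a b t ht)

/-! ### tensors with two slots and products -/

/-- product of tensors -/
private def pt24 {a b : ℕ} (u : (Fin a → n) → ℂ) (v : (Fin b → n) → ℂ) : (Fin a ⊕ Fin b → n) → ℂ :=
  fun i => u (fun k => i (Sum.inl k)) * v (fun k => i (Sum.inr k))

private lemma act_pt24 {a b : ℕ} (u : (Fin a → n) → ℂ) (v : (Fin b → n) → ℂ)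
    (A : Fin a ⊕ Fin b → Matrix n n ℂ) (i : Fin a ⊕ Fin b → n) :
    actF A (pt24 u v) i =
      actF (fun k => A (Sum.inl k)) u (fun k => i (Sum.inl k)) *
        actF (fun k => A (Sum.inr k)) v (fun k => i (Sum.inr k)) := by
  unfold actF
  rw [Finset.sum_mul_sum, ← Fintype.sum_prod_type']
  refine Fintype.sum_equiv (Equiv.sumArrowEquivProdArrow (Fin a) (Fin b) n) _ _ fun j => ?_
  rw [Fintype.prod_sum_type]
  simp only [pt24, Equiv.sumArrowEquivProdArrow, Equiv.coe_fn_mk, Function.comp_def]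
  ring

private lemma dact_pt24 {a b : ℕ} (u : (Fin a → n) → ℂ) (v : (Fin b → n) → ℂ)
    (A : Fin a ⊕ Fin b → Matrix n n ℂ) (i : Fin a ⊕ Fin b → n) :
    dact A (pt24 u v) i =
      dact (fun k => A (Sum.inl k)) u (fun k => i (Sum.inl k)) * v (fun k => i (Sum.inr k)) +
        u (fun k => i (Sum.inl k)) * dact (fun k => A (Sum.inr k)) v (fun k => i (Sum.inr k)) := by
  unfold dact
  simp only [Finset.sum_apply, Fintype.sum_sum_type, act_pt24, Finset.sum_mul, Finset.mul_sum]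
  congr 1
  · refine Finset.sum_congr rfl fun k _ => ?_
    congr 1
    · congr 1
      funext l
      by_cases h : l = k
      · subst h
        simp
      · rw [Function.update_of_ne h, Function.update_of_ne (by simpa using h)]
    · have e1 : (fun l => Function.update (fun _ => (1 : Matrix n n ℂ)) (Sum.inl k : Fin a ⊕ Fin b)
          (A (Sum.inl k)) (Sum.inr l)) = fun _ => 1 := by
        funext l
        rw [Function.update_of_ne (by simp)]
      rw [e1, actF_one]
  · refine Finset.sum_congr rfl fun k _ => ?_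
    congr 1
    · have e1 : (fun l => Function.update (fun _ => (1 : Matrix n n ℂ)) (Sum.inr k : Fin a ⊕ Fin b)
          (A (Sum.inr k)) (Sum.inl l)) = fun _ => 1 := by
        funext l
        rw [Function.update_of_ne (by simp)]
      rw [e1, actF_one]
    · congr 1
      funext l
      by_cases h : l = k
      · subst h
        simp
      · rw [Function.update_of_ne h, Function.update_of_ne (by simpa using h)]

/-- the tensor of a matrix -/
private def q2_24 (M : Matrix n n ℂ) : (Fin 2 → n) → ℂ := fun j => M (j 0) (j 1)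

private lemma act_q2_24 (A : Fin 2 → Matrix n n ℂ) (M : Matrix n n ℂ) (i : Fin 2 → n) :
    actF A (q2_24 M) i = (A 0 * M * (A 1)ᵀ) (i 0) (i 1) := by
  unfold actF q2_24
  rw [← Equiv.sum_comp (finTwoArrowEquiv n).symm, Fintype.sum_prod_type]
  simp only [Matrix.mul_apply, Finset.sum_mul, Matrix.transpose_apply, finTwoArrowEquiv_symm_apply,
    Matrix.cons_val_zero, Matrix.cons_val_one, Fin.prod_univ_two]
  rw [Finset.sum_comm]
  refine Finset.sum_congr rfl fun x _ => Finset.sum_congr rfl fun y _ => ?_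
  ring

private lemma dact_q2_24 (A : Fin 2 → Matrix n n ℂ) (M : Matrix n n ℂ) (i : Fin 2 → n) :
    dact A (q2_24 M) i = (A 0 * M + M * (A 1)ᵀ) (i 0) (i 1) := by
  unfold dact
  rw [Fin.sum_univ_two, Pi.add_apply, act_q2_24, act_q2_24, Matrix.add_apply]
  simp

private lemma tate_of24 {a b : ℕ} {t : (Fin a ⊕ Fin b → n) → ℂ}
    (h : ∀ g ∈ Γ, actF (slot a b (g : Matrix n n ℂ) ((g⁻¹ : GL n ℂ) : Matrix n n ℂ)) t = t) :
    IsTateTensor Γ a b t := by
  refine ⟨Γ, le_rfl, ?_, h⟩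
  rw [Subgroup.relIndex_self]
  exact one_ne_zero

theorem IsGalE.LG_sim (H : IsHS m Q S P) (G : IsGalE m Q P Γ) {X : Matrix n n ℂ} (hX : X ∈ LG Γ) :
    ∃ c : ℂ, (m = 0 → c = 0) ∧ Xᵀ * toC Q + toC Q * X = c • toC Q := by
  obtain ⟨_, _, Qi, _, _, hQ1, hQ2, _⟩ := H.exists_basis
  have hgg : ∀ g : GL n ℂ, (g : Matrix n n ℂ) * ((g⁻¹ : GL n ℂ) : Matrix n n ℂ) = 1 := by
    intro g
    rw [← Units.val_mul, mul_inv_cancel, Units.val_one]
  have hginv : ∀ g ∈ Γ, ∃ z : ℂ, (m = 0 → z = 1) ∧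
      toC Q = z ^ 2 • ((((g⁻¹ : GL n ℂ) : Matrix n n ℂ))ᵀ * toC Q * ((g⁻¹ : GL n ℂ) : Matrix n n ℂ)) ∧
      (g : Matrix n n ℂ) * Qi * (g : Matrix n n ℂ)ᵀ = z ^ 2 • Qi := by
    intro g hg
    obtain ⟨z, hz, h1⟩ := G.sim g hg
    set g' := ((g⁻¹ : GL n ℂ) : Matrix n n ℂ) with hg'
    have h2 : (g : Matrix n n ℂ) * g' = 1 := hgg g
    have h3 : g'ᵀ * (g : Matrix n n ℂ)ᵀ = 1 := by rw [← Matrix.transpose_mul, h2, Matrix.transpose_one]
    refine ⟨z, hz, ?_, ?_⟩
    · calc toC Q = (g'ᵀ * (g : Matrix n n ℂ)ᵀ) * toC Q * ((g : Matrix n n ℂ) * g') := by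
            rw [h2, h3, one_mul, mul_one]
        _ = g'ᵀ * ((g : Matrix n n ℂ)ᵀ * toC Q * (g : Matrix n n ℂ)) * g' := by simp only [mul_assoc]
        _ = z ^ 2 • (g'ᵀ * toC Q * g') := by rw [h1, mul_smul_comm, smul_mul_assoc]
    · have h4 : (g : Matrix n n ℂ) = z ^ 2 • (Qi * g'ᵀ * toC Q) := by
        calc (g : Matrix n n ℂ) = (Qi * toC Q) * (g : Matrix n n ℂ) := by rw [hQ2, one_mul]
          _ = Qi * (g'ᵀ * (g : Matrix n n ℂ)ᵀ) * (toC Q * (g : Matrix n n ℂ)) := by
              rw [h3, mul_one, mul_assoc]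
          _ = Qi * g'ᵀ * ((g : Matrix n n ℂ)ᵀ * toC Q * (g : Matrix n n ℂ)) := by simp only [mul_assoc]
          _ = z ^ 2 • (Qi * g'ᵀ * toC Q) := by rw [h1, mul_smul_comm]
      calc (g : Matrix n n ℂ) * Qi * (g : Matrix n n ℂ)ᵀ =
          z ^ 2 • (Qi * g'ᵀ * toC Q * Qi * (g : Matrix n n ℂ)ᵀ) := by
            conv_lhs => rw [mul_assoc]; arg 1; rw [h4]
            rw [smul_mul_assoc]
            simp only [mul_assoc]
        _ = z ^ 2 • (Qi * (g'ᵀ * (g : Matrix n n ℂ)ᵀ)) := by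
            congr 1
            rw [mul_assoc (Qi * g'ᵀ), hQ1, mul_one, mul_assoc]
        _ = z ^ 2 • Qi := by rw [h3, mul_one]
  by_cases hm : m = 0
  · refine ⟨0, fun _ => rfl, ?_⟩
    rw [zero_smul]
    set t : (Fin 0 ⊕ Fin 2 → n) → ℂ := pt24 (fun _ => 1) (q2_24 (toC Q)) with ht
    have hfix : IsTateTensor Γ 0 2 t := by
      apply tate_of24
      intro g hg
      obtain ⟨z, hz, h1, _⟩ := hginv g hg
      rw [hz hm, one_pow, one_smul] at h1
      funext i
      rw [ht, act_pt24, act_q2_24]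
      simp only [slot, Sum.elim_inr, Matrix.transpose_transpose]
      rw [← h1]
      simp [actF, pt24, q2_24]
    have h2 := hX 0 2 t hfix
    rw [dL_apply] at h2
    ext x y
    have h3 := congrFun h2 (Sum.elim Fin.elim0 ![x, y])
    rw [ht, dact_pt24, dact_q2_24] at h3
    simp only [lslot, Sum.elim_inr, Matrix.cons_val_zero, Matrix.cons_val_one, Matrix.transpose_neg,
      Matrix.transpose_transpose, Matrix.zero_apply, Pi.zero_apply] at h3 ⊢
    have h4 : dact (fun k : Fin 0 => Sum.elim (fun _ => X) (fun _ => -Xᵀ) (Sum.inl k : Fin 0 ⊕ Fin 2))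
        (fun _ => (1 : ℂ)) (fun k : Fin 0 => Sum.elim Fin.elim0 ![x, y] (Sum.inl k : Fin 0 ⊕ Fin 2)) = 0 := by
      simp [dact]
    rw [h4, zero_mul, zero_add, one_mul, neg_mul, mul_neg, ← neg_add, Matrix.neg_apply] at h3
    exact neg_eq_zero.mp h3
  · rcases isEmpty_or_nonempty n with hn | hn
    · exact ⟨0, fun _ => rfl, by ext i; exact hn.elim i⟩
    obtain ⟨x0, y0, hxy⟩ : ∃ x y, Qi x y ≠ 0 := by
      by_contra! hcon
      have h0 : Qi = 0 := by
        ext x y
        exact hcon x y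
      rw [h0, mul_zero] at hQ1
      obtain ⟨x⟩ := hn
      have := congrFun (congrFun hQ1 x) x
      simp at this
    set t : (Fin 2 ⊕ Fin 2 → n) → ℂ := pt24 (q2_24 Qi) (q2_24 (toC Q)) with ht
    have hfix : IsTateTensor Γ 2 2 t := by
      apply tate_of24
      intro g hg
      obtain ⟨z, hz, h1, h1'⟩ := hginv g hg
      funext i
      rw [ht, act_pt24, act_q2_24, act_q2_24]
      simp only [slot, Sum.elim_inr, Sum.elim_inl, Matrix.transpose_transpose]
      rw [h1']
      have h2 := congrFun (congrFun h1 (i (Sum.inr 0))) (i (Sum.inr 1))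
      simp only [Matrix.smul_apply, smul_eq_mul] at h2 ⊢
      unfold pt24 q2_24
      rw [h2]
      ring
    have h2 := hX 2 2 t hfix
    rw [dL_apply] at h2
    refine ⟨(X * Qi + Qi * Xᵀ) x0 y0 / Qi x0 y0, fun h => absurd h hm, ?_⟩
    ext x y
    have h3 := congrFun h2 (Sum.elim ![x0, y0] ![x, y])
    rw [ht, dact_pt24, dact_q2_24, dact_q2_24] at h3
    simp only [lslot, Sum.elim_inr, Sum.elim_inl, Matrix.cons_val_zero, Matrix.cons_val_one, Matrix.transpose_neg,
      Matrix.transpose_transpose, Pi.zero_apply, q2_24] at h3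
    rw [neg_mul, mul_neg, ← neg_add, Matrix.neg_apply] at h3
    rw [Matrix.smul_apply, smul_eq_mul, div_mul_eq_mul_div, eq_div_iff hxy]
    linear_combination -h3


/-! ### tensors of type `(1, 1)` -/

/-- the tensor of an endomorphism -/
private def e11_24 (x : Matrix n n ℂ) : (Fin 1 ⊕ Fin 1 → n) → ℂ := fun i => x (i (Sum.inl 0)) (i (Sum.inr 0))

private lemma act_e11_24 (x : Matrix n n ℂ) (A : Fin 1 ⊕ Fin 1 → Matrix n n ℂ) (i : Fin 1 ⊕ Fin 1 → n) :
    actF A (e11_24 x) i = (A (Sum.inl 0) * x * (A (Sum.inr 0))ᵀ) (i (Sum.inl 0)) (i (Sum.inr 0)) := by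
  have h1 : actF A (e11_24 x) i = ∑ p : n × n, A (Sum.inl 0) (i (Sum.inl 0)) p.1 *
      A (Sum.inr 0) (i (Sum.inr 0)) p.2 * x p.1 p.2 := by
    unfold actF e11_24
    refine Fintype.sum_equiv ((Equiv.sumArrowEquivProdArrow (Fin 1) (Fin 1) n).trans
      (Equiv.prodCongr (Equiv.funUnique (Fin 1) n) (Equiv.funUnique (Fin 1) n))) _ _ fun j => ?_
    rw [Fintype.prod_sum_type]
    simp [Equiv.sumArrowEquivProdArrow]
  rw [h1, Fintype.sum_prod_type]
  simp only [Matrix.mul_apply, Finset.sum_mul, Matrix.transpose_apply]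
  rw [Finset.sum_comm]
  refine Finset.sum_congr rfl fun y _ => Finset.sum_congr rfl fun z _ => ?_
  ring

private lemma dact_e11_24 (x : Matrix n n ℂ) (A : Fin 1 ⊕ Fin 1 → Matrix n n ℂ) (i : Fin 1 ⊕ Fin 1 → n) :
    dact A (e11_24 x) i = (A (Sum.inl 0) * x + x * (A (Sum.inr 0))ᵀ) (i (Sum.inl 0)) (i (Sum.inr 0)) := by
  unfold dact
  rw [Fintype.sum_sum_type, Fin.sum_univ_one, Fin.sum_univ_one, Pi.add_apply, act_e11_24, act_e11_24,
    Matrix.add_apply]
  simp

/-- A matrix which commutes with a subgroup of finite index is a Tate tensor. -/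
private lemma tate_e11_24 {x : Matrix n n ℂ} {Γ' : Subgroup (GL n ℂ)} (hΓ : FI Γ' Γ)
    (h : ∀ g ∈ Γ', (g : Matrix n n ℂ) * x = x * (g : Matrix n n ℂ)) : IsTateTensor Γ 1 1 (e11_24 x) := by
  refine ⟨Γ', hΓ.1, hΓ.2, fun g hg => ?_⟩
  funext i
  rw [act_e11_24]
  simp only [slot, Sum.elim_inl, Sum.elim_inr, Matrix.transpose_transpose]
  rw [h g hg, mul_assoc, ← Units.val_mul, mul_inv_cancel, Units.val_one, mul_one]
  rfl

theorem LG_EC (C : CentEC P Γ) {X x : Matrix n n ℂ} (hX : X ∈ LG Γ) (hx : x ∈ EC P) : X * x = x * X := by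
  obtain ⟨Γ', h1, h2⟩ := C.comm
  have h3 := hX 1 1 _ (tate_e11_24 h1 fun g hg => h2 g hg x hx)
  rw [dL_apply] at h3
  ext u v
  have h4 := congrFun h3 (Sum.elim (fun _ => u) (fun _ => v))
  rw [dact_e11_24] at h4
  simp only [lslot, Sum.elim_inl, Sum.elim_inr, Matrix.transpose_neg, Matrix.transpose_transpose, Pi.zero_apply,
    mul_neg] at h4
  rw [← sub_eq_add_neg, Matrix.sub_apply] at h4
  exact sub_eq_zero.mp h4

theorem R_EC (C : CentEC P Γ) {R : ℤ → Matrix n n ℂ} (hR : IsHT m Q S Γ R) {x : Matrix n n ℂ}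
    (hx : x ∈ EC P) (p : ℤ) : R p * x = x * R p := by
  classical
  set h := ∑ p ∈ S, (p : ℂ) • R p with hh
  have hc : h * x = x * h := LG_EC C hR.h_mem hx
  have hl : ∀ q, R q * h = (q : ℂ) • R q := by
    intro q
    by_cases hq : q ∈ S
    · rw [hh, Finset.mul_sum, Finset.sum_eq_single q]
      · rw [mul_smul_comm, hR.mul, if_pos rfl]
      · intro r _ hr
        rw [mul_smul_comm, hR.mul, if_neg (Ne.symm hr), smul_zero]
      · exact fun h => absurd hq h
    · rw [hR.supp q hq, zero_mul, smul_zero]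
  have hr : ∀ q, h * R q = (q : ℂ) • R q := by
    intro q
    by_cases hq : q ∈ S
    · rw [hh, Finset.sum_mul, Finset.sum_eq_single q]
      · rw [smul_mul_assoc, hR.mul, if_pos rfl]
      · intro r _ hr
        rw [smul_mul_assoc, hR.mul, if_neg hr, smul_zero]
      · exact fun h => absurd hq h
    · rw [hR.supp q hq, mul_zero, smul_zero]
  have hz : ∀ q r, q ≠ r → R q * x * R r = 0 := by
    intro q r hqr
    have h1 : R q * (h * x) * R r = R q * (x * h) * R r := by rw [hc]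
    have h2 : (q : ℂ) • (R q * x * R r) = (r : ℂ) • (R q * x * R r) := by
      calc (q : ℂ) • (R q * x * R r) = R q * h * x * R r := by
            rw [hl, smul_mul_assoc, smul_mul_assoc]
        _ = R q * (h * x) * R r := by simp only [mul_assoc]
        _ = R q * (x * h) * R r := h1
        _ = R q * x * (h * R r) := by simp only [mul_assoc]
        _ = (r : ℂ) • (R q * x * R r) := by rw [hr, mul_smul_comm]
    have h3 : ((q : ℂ) - (r : ℂ)) • (R q * x * R r) = 0 := by rw [sub_smul, h2, sub_self]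
    rcases smul_eq_zero.mp h3 with h4 | h4
    · exact absurd (by exact_mod_cast sub_eq_zero.mp h4) hqr
    · exact h4
  by_cases hp : p ∈ S
  · calc R p * x = R p * x * ∑ q ∈ S, R q := by rw [hR.sum, mul_one]
      _ = R p * x * R p := by
          rw [Finset.mul_sum, Finset.sum_eq_single p]
          · intro q _ hq
            exact hz p q (Ne.symm hq)
          · exact fun h => absurd hp h
      _ = (∑ q ∈ S, R q) * x * R p := by
          rw [Finset.sum_mul, Finset.sum_mul, Finset.sum_eq_single p]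
          · intro q _ hq
            exact hz q p hq
          · exact fun h => absurd hp h
      _ = x * R p := by rw [hR.sum, one_mul]
  · rw [hR.supp p hp, zero_mul, mul_zero]

/-- every block is irreducible under all subgroups of finite index that commute with the endomorphisms -/
theorem IsGalE.block_irr (G : IsGalE m Q P Γ) (C : CentEC P Γ) {e : Matrix n n ℂ}
    (he : IsBlock P e) {Γ' : Subgroup (GL n ℂ)} (hΓ : FI Γ' Γ)
    (hcm : ∀ g ∈ Γ', ∀ x ∈ EC P, (g : Matrix n n ℂ) * x = x * (g : Matrix n n ℂ))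
    (W : Submodule ℂ (n → ℂ)) (hW : ∀ g ∈ Γ', ∀ w ∈ W, (g : Matrix n n ℂ) *ᵥ w ∈ W) (hWe : ∀ w ∈ W, e *ᵥ w = w) :
    W = ⊥ ∨ ∀ w, e *ᵥ w = w → w ∈ W := by
  classical
  by_cases h0 : W = ⊥
  · exact Or.inl h0
  right
  obtain ⟨W', hW', hWW⟩ := G.ss Γ' hΓ W hW
  obtain ⟨w₀, hw₀, hne⟩ := (Submodule.ne_bot_iff W).mp h0
  -- the projection onto `W` along `W'`
  set f : (n → ℂ) →ₗ[ℂ] (n → ℂ) := W.subtype ∘ₗ W.projectionOnto W' hWW with hf
  have f1 : ∀ w ∈ W, f w = w := by
    intro w hw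
    have := Submodule.projectionOnto_apply_left hWW ⟨w, hw⟩
    rw [hf, LinearMap.comp_apply, this]
    rfl
  have f2 : ∀ w ∈ W', f w = 0 := by
    intro w hw
    rw [hf, LinearMap.comp_apply, (Submodule.projectionOnto_apply_eq_zero_iff hWW).mpr hw, map_zero]
  have f3 : ∀ w, f w ∈ W := fun w => (W.projectionOnto W' hWW w).2
  set T := LinearMap.toMatrix' f with hT
  have hTv : ∀ w, T *ᵥ w = f w := fun w => LinearMap.toMatrix'_mulVec f w
  have hTc : ∀ g ∈ Γ', (g : Matrix n n ℂ) * T = T * (g : Matrix n n ℂ) := by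
    intro g hg
    apply Matrix.toLin'.injective
    apply LinearMap.ext
    intro v
    rw [Matrix.toLin'_apply, Matrix.toLin'_apply, ← Matrix.mulVec_mulVec, ← Matrix.mulVec_mulVec, hTv, hTv]
    obtain ⟨y, hy, z, hz, rfl⟩ := Submodule.mem_sup.mp (hWW.sup_eq_top ▸ Submodule.mem_top (x := v))
    rw [map_add, f1 y hy, f2 z hz, add_zero, Matrix.mulVec_add, map_add, f1 _ (hW g hg y hy),
      f2 _ (hW' g hg z hz), add_zero]
  obtain ⟨c, hc⟩ := he.min T (C.cent Γ' hΓ T hTc)
  have hc1 : c = 1 := by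
    have h1 : (T * e) *ᵥ w₀ = w₀ := by
      rw [← Matrix.mulVec_mulVec, hWe _ hw₀, hTv, f1 _ hw₀]
    rw [hc, Matrix.smul_mulVec, hWe _ hw₀] at h1
    by_contra hn
    apply hne
    have h2 : (c - 1) • w₀ = 0 := by rw [sub_smul, h1, one_smul, sub_self]
    rcases smul_eq_zero.mp h2 with h3 | h3
    · exact absurd (sub_eq_zero.mp h3) hn
    · exact h3
  intro w hw
  have h1 : (T * e) *ᵥ w = w := by rw [hc, hc1, one_smul, hw]
  rw [← Matrix.mulVec_mulVec, hw, hTv] at h1
  rw [← h1]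
  exact f3 w

end MH
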